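import Pool.Agent.Q201.TR.M

/-!
# A frequently hypercyclic shift operator that is not Devaney chaotic

`X = ℓ¹(ℕ)`, `p = 1`.  The unit vectors of `X` are the vertices of a tree.  In suitable coordinates
the norm of the vector of a vertex is small on a long interval of times (its valley) and returns to
`1` afterwards, and every vertex is approximated by children whose valleys begin at a fixed time and
are as long as we want.  A frequently hypercyclic vector needs only approximate preimages with finite
horizon, while a periodic vector would need a vector whose norms are summable over all times.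
-/

set_option autoImplicit false

open Filter Topology Set

namespace Pool.Agent.Results.MP_7d5718_an.FiniteHorizon

/-- `A` has positive lower density -/
def PosLowerDensity (A : Set ℕ) : Prop :=
  0 < liminf (fun N : ℕ => (Nat.card {n : ℕ // n < N ∧ n ∈ A} : ℝ) / N) atTop

section

variable {V : Type} [TopologicalSpace V]

/-- some orbit is dense -/
def Hypercyclic (T : V → V) : Prop := ∃ x : V, Dense (range fun n : ℕ => T^[n] x)

/-- the periodic points are dense -/
def DensePeriodic (T : V → V) : Prop := Dense {x : V | ∃ k : ℕ, 1 ≤ k ∧ T^[k] x = x}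

/-- hypercyclic with dense periodic points -/
def DevaneyChaotic (T : V → V) : Prop := Hypercyclic T ∧ DensePeriodic T

/-- some vector visits every non-empty open set with positive lower density -/
def FrequentlyHypercyclic (T : V → V) : Prop :=
  ∃ x : V, ∀ U : Set V, IsOpen U → U.Nonempty → PosLowerDensity {n : ℕ | T^[n] x ∈ U}

end

/-- `ℓ¹(ℤ, X)` -/
abbrev L1Z (X : Type) [NormedAddCommGroup X] : Type := lp (fun _ : ℤ => X) 1

section

variable {𝕜 X : Type} [RCLike 𝕜] [NormedAddCommGroup X] [NormedSpace 𝕜 X]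

/-- all `S n` and their inverses have norm at most `C` -/
def UnifBounded (C : ℝ) (S : ℤ → X ≃L[𝕜] X) : Prop :=
  ∀ n x, ‖S n x‖ ≤ C * ‖x‖ ∧ ‖(S n).symm x‖ ≤ C * ‖x‖

/-- `σ` is the shift operator on `ℓ¹(ℤ, X)` generated by the family `S` -/
def IsShift (S : ℤ → X ≃L[𝕜] X) (σ : L1Z X → L1Z X) : Prop :=
  ∀ x n, σ x n = S (n + 1) (x (n + 1))

end

/-- There is a uniformly bounded family of invertible operators on `X` whose shift operator on
`ℓ¹(ℤ, X)` is frequently hypercyclic, without a dense set of periodic points, so not Devaney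
chaotic. -/
def FHCNotChaotic (𝕜 X : Type) [RCLike 𝕜] [NormedAddCommGroup X] [NormedSpace 𝕜 X] : Prop :=
  ∃ (S : ℤ → X ≃L[𝕜] X) (σ : L1Z X → L1Z X),
    UnifBounded 3 S ∧ IsShift S σ ∧ FrequentlyHypercyclic σ ∧ ¬ DensePeriodic σ ∧
      ¬ DevaneyChaotic σ

theorem posLowerDensity_of_LD {A : Set ℕ} (h : H342R3.FS.LD A) : PosLowerDensity A := by
  obtain ⟨δ, hδ, N₀, hN⟩ := h
  refine lt_of_lt_of_le hδ (le_liminf_of_le ?_ ?_)
  · refine IsBoundedUnder.isCoboundedUnder_ge ?_
    refine isBoundedUnder_of ⟨1, fun N => ?_⟩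
    rw [H342R3.FS.card_eq]
    have h1 : (H342R3.FS.cA A N : ℝ) ≤ N := by exact_mod_cast H342R3.FS.cA_le A N
    exact div_le_one_of_le₀ h1 (Nat.cast_nonneg N)
  · filter_upwards [eventually_ge_atTop (max N₀ 1)] with N hN'
    have h1 : (0 : ℝ) < N := by
      have : 1 ≤ N := (le_max_right _ _).trans hN'
      exact_mod_cast this
    rw [le_div_iff₀ h1]
    exact hN N ((le_max_left _ _).trans hN')

theorem result (𝕜 : Type) [RCLike 𝕜] : FHCNotChaotic 𝕜 (lp (fun _ : ℕ => 𝕜) 1) := by
  obtain ⟨σ, h1, ⟨x, hx⟩, h3⟩ := Pool.Agent.Q201.TR.main 𝕜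
  exact ⟨Pool.Agent.Q201.TR.SS 𝕜, σ, fun n x => ⟨Pool.Agent.Q201.TR.SS_norm n x,
    Pool.Agent.Q201.TR.SS_norm_symm n x⟩, h1,
    ⟨x, fun U hU hne => posLowerDensity_of_LD (hx U hU hne)⟩, h3, fun h => h3 h.2⟩

end Pool.Agent.Results.MP_7d5718_an.FiniteHorizon
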